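import Pool.Agent.Helper81.Tok2.Goals
import Pool.Agent.Helper65.LinSpace.Block

set_option autoImplicit false

/-!
# Token machines with free silent steps: the Boolean functions at the true values

Adapted from `Pool.Agent.Helper32.Tok.TRUTH`.
-/

namespace Pool.Agent.Helper61.Tok2

open Pool.Agent.Helper65.LinSpace Pool.Agent.Helper28.Ram Pool.Agent.Helper81.Tok2 Finset

variable {m : Pool.Agent.Helper81.Tok2.Mach}

theorem slt_lt (hm : m.Ok) {q : ℕ} (hq : q < 2 ^ m.σ) (v : ℕ) : m.slt q v < 2 ^ m.σ := by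
  unfold Mach.slt
  rw [ifz_eq01]
  split_ifs
  · exact hm.hN _ _
  · exact hq

theorem run_lt (hm : m.Ok) (M : ℕ → ℕ) (n : ℕ) {q : ℕ} (hq : q < 2 ^ m.σ) :
    m.run M n q < 2 ^ m.σ := by
  unfold Mach.run
  induction n with
  | zero => simpa using hq
  | succ n ih =>
    rw [Function.iterate_succ_apply']
    exact slt_lt hm ih _

/-- The event of the changing step. -/
def qq (m : Pool.Agent.Helper81.Tok2.Mach) (t : ℕ) : ℕ :=
  m.run (m.conf t).2 (2 ^ m.h) (m.conf t).1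

theorem conf_succ (m : Pool.Agent.Helper81.Tok2.Mach) (t : ℕ) : m.conf (t + 1) =
    (m.N (qq m t) ((m.conf t).2 (m.A (qq m t))),
      Function.update (m.conf t).2 (m.A (qq m t))
        (m.W (qq m t) ((m.conf t).2 (m.A (qq m t))))) := rfl

theorem conf_lt (hm : m.Ok) (t : ℕ) :
    (m.conf t).1 < 2 ^ m.σ ∧ ∀ x, (m.conf t).2 x < 2 ^ m.a := by
  induction t with
  | zero => exact ⟨hm.hq0, hm.hM0⟩
  | succ t ih =>
    rw [conf_succ]
    refine ⟨hm.hN _ _, fun x => ?_⟩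
    simp only [Function.update_apply]
    split_ifs
    · exact hm.hW _ _
    · exact ih.2 x

/-- The contents in the block `k`. -/
def CC (m : Pool.Agent.Helper81.Tok2.Mach) (k t x : ℕ) : ℕ := (m.conf (k * (m.G * m.b) + t)).2 x

theorem E_lt (hm : m.Ok) (k t : ℕ) : m.E k t < 2 ^ m.σ := by
  unfold Mach.E
  split_ifs
  · exact (conf_lt hm _).1
  · exact run_lt hm _ _ (conf_lt hm _).1

theorem CC_lt (hm : m.Ok) (k t x : ℕ) : CC m k t x < 2 ^ m.a := (conf_lt hm _).2 x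

theorem E_zero (m : Pool.Agent.Helper81.Tok2.Mach) (k : ℕ) : m.E k 0 = (m.conf (k * (m.G * m.b))).1 := by
  simp [Mach.E]

theorem E_even (m : Pool.Agent.Helper81.Tok2.Mach) (k s : ℕ) :
    m.E k (2 * s) = (m.conf (k * (m.G * m.b) + s)).1 := by
  unfold Mach.E
  rw [if_pos (by omega), show 2 * s / 2 = s by omega]

theorem E_odd (m : Pool.Agent.Helper81.Tok2.Mach) (k s : ℕ) :
    m.E k (2 * s + 1) = qq m (k * (m.G * m.b) + s) := by
  unfold Mach.E qq
  rw [if_neg (by omega), show (2 * s + 1) / 2 = s by omega]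

theorem CC_succ (m : Pool.Agent.Helper81.Tok2.Mach) (k t x : ℕ) :
    CC m k (t + 1) x = if m.A (m.E k (2 * t + 1)) = x then m.W (m.E k (2 * t + 1)) (CC m k t x)
      else CC m k t x := by
  rw [E_odd]
  have h : CC m k (t + 1) x = Function.update (m.conf (k * (m.G * m.b) + t)).2
    (m.A (qq m (k * (m.G * m.b) + t)))
    (m.W (qq m (k * (m.G * m.b) + t)) (CC m k t (m.A (qq m (k * (m.G * m.b) + t))))) x := rfl
  rw [h, Function.update_apply]
  by_cases h1 : x = m.A (qq m (k * (m.G * m.b) + t))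
  · rw [if_pos h1, if_pos h1.symm, ← h1]
  · rw [if_neg h1, if_neg fun h2 => h1 h2.symm]
    rfl

theorem tn_eq (m : Pool.Agent.Helper81.Tok2.Mach) (k x : ℕ) :
    m.tn k x = m.E k 0 + 2 ^ m.σ * CC m k 0 x := by
  rw [E_zero]
  rfl

theorem tn_lt (hm : m.Ok) (k x : ℕ) : m.tn k x < 2 ^ m.wc := by
  have h1 := E_lt hm k 0
  have h2 : 2 ^ m.σ * (CC m k 0 x + 1) ≤ 2 ^ m.σ * 2 ^ m.a :=
    Nat.mul_le_mul_left _ (CC_lt hm k 0 x)
  rw [tn_eq]
  unfold Mach.wc
  rw [pow_add]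
  rw [Nat.mul_add] at h2
  omega

/-- The number which codes the events of the intervals before `i` and the query. -/
def zz (m : Pool.Agent.Helper81.Tok2.Mach) (k i x : ℕ) : ℕ :=
  tab (2 ^ m.σ) (i * (2 * m.b)) (fun t => m.E k (t + 1)) + 2 ^ (i * m.wn) * m.tn k x

theorem pow_wn (m : Pool.Agent.Helper81.Tok2.Mach) (i : ℕ) :
    2 ^ (i * m.wn) = (2 ^ m.σ) ^ (i * (2 * m.b)) := by
  rw [← pow_mul]
  congr 1
  unfold Mach.wn
  ring

theorem tabE_lt (hm : m.Ok) (k i : ℕ) :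
    tab (2 ^ m.σ) (i * (2 * m.b)) (fun t => m.E k (t + 1)) < 2 ^ (i * m.wn) := by
  rw [pow_wn]
  exact tab_lt fun t _ => E_lt hm k (t + 1)

theorem zz_lt (hm : m.Ok) (k i x : ℕ) : zz m k i x < 2 ^ m.nv i := by
  have h1 := tabE_lt hm k i
  have h2 : 2 ^ (i * m.wn) * (m.tn k x + 1) ≤ 2 ^ (i * m.wn) * 2 ^ m.wc :=
    Nat.mul_le_mul_left _ (tn_lt hm k x)
  unfold zz Mach.nv
  rw [pow_add]
  rw [Nat.mul_add] at h2
  omega

theorem zz_mod (hm : m.Ok) (k i x : ℕ) :
    zz m k i x % 2 ^ (i * m.wn) = tab (2 ^ m.σ) (i * (2 * m.b)) (fun t => m.E k (t + 1)) := by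
  unfold zz
  rw [Nat.add_mul_mod_self_left, Nat.mod_eq_of_lt (tabE_lt hm k i)]

theorem zz_div (hm : m.Ok) (k i x : ℕ) : zz m k i x / 2 ^ (i * m.wn) = m.tn k x := by
  unfold zz
  rw [Nat.add_mul_div_left _ _ (by positivity), Nat.div_eq_of_lt (tabE_lt hm k i), zero_add]

/-- The digits of the number. -/
theorem zz_dig (hm : m.Ok) (k i x : ℕ) {t : ℕ} (ht : t < i * (2 * m.b)) :
    dig (2 ^ m.σ) (zz m k i x) t = m.E k (t + 1) := by
  rw [← dig_mod_pow _ _ ht, ← pow_wn, zz_mod hm, dig_tab (fun t _ => E_lt hm k (t + 1)) ht]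

/-- The bits of the number are the true values. -/
theorem zz_bits (hm : m.Ok) (p : ℕ) (k u x : ℕ) {i : ℕ} (hi : i ≤ m.G) (j : ℕ) :
    m.vars p i (fun j => m.V p k (j / m.wn) u (j % m.wn)) (m.T p k x) j =
      bitZ p (zz m k i x) j := by
  have hσ := hm.hσ
  have hb := hm.hb
  have hwn : 0 < m.wn := Nat.mul_pos hσ (by omega)
  unfold Mach.vars
  by_cases hj : j < i * m.wn
  · rw [if_pos hj]
    have h1 : j / m.wn < i := (Nat.div_lt_iff_lt_mul hwn).2 hj
    have h2 : j / m.wn < m.G := lt_of_lt_of_le h1 hi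
    unfold Pool.Agent.Helper81.Tok2.Mach.V Mach.vn bitZ
    simp only
    rw [if_pos h2]
    congr 1
    -- left hand side
    have h3 : j % m.wn / m.σ < 2 * m.b := by
      rw [Nat.div_lt_iff_lt_mul hσ, mul_comm]
      exact Nat.mod_lt _ hwn
    have h4 : j % m.wn % m.σ < m.σ := Nat.mod_lt _ hσ
    have h5 : j % m.wn = j % m.wn / m.σ * m.σ + j % m.wn % m.σ := (Nat.div_add_mod' _ _).symm
    have h6 : j % m.wn % m.σ = j % m.σ := by
      unfold Mach.wn
      exact Nat.mod_mul_right_mod j m.σ (2 * m.b)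
    have h8 : j / m.wn * (2 * m.b) + j % m.wn / m.σ = j / m.σ := by
      unfold Mach.wn
      rw [Nat.mod_mul_right_div_self, ← Nat.div_div_eq_div_mul, Nat.div_add_mod']
    have hL : dig 2 (tab (2 ^ m.σ) (2 * m.b) fun r =>
        m.E k (j / m.wn * (2 * m.b) + r + 1)) (j % m.wn) =
        dig 2 (m.E k (j / m.σ + 1)) (j % m.σ) := by
      rw [h5, dig_tab_block (by norm_num) (fun r _ => E_lt hm k _) h3 h4, h6, h8]
    rw [hL]
    -- right hand side
    have h9 : j / m.σ < i * (2 * m.b) := by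
      rw [Nat.div_lt_iff_lt_mul hσ]
      refine lt_of_lt_of_eq hj ?_
      unfold Mach.wn
      ring
    rw [← dig_mod_pow _ _ hj, zz_mod hm]
    have h10 : j = j / m.σ * m.σ + j % m.σ := (Nat.div_add_mod' _ _).symm
    conv_rhs => rw [h10]
    rw [dig_tab_block (by norm_num) (fun r _ => E_lt hm k (r + 1)) h9 (Nat.mod_lt _ hσ)]
  · rw [if_neg hj]
    push Not at hj
    obtain ⟨o, rfl⟩ := Nat.exists_eq_add_of_le hj
    rw [Nat.add_sub_cancel_left]
    unfold Pool.Agent.Helper81.Tok2.Mach.T bitZ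
    congr 1
    conv_rhs => unfold dig
    rw [pow_add, ← Nat.div_div_eq_div_mul, zz_div hm]
    rfl

/-- The extension at the true values. -/
theorem fhat_true (hm : m.Ok) (p : ℕ) (k u x : ℕ) {i : ℕ} (hi : i ≤ m.G) (F : ℕ → ℕ) (q : ℕ) :
    fhat p (m.nv i) F q (m.vars p i (fun j => m.V p k (j / m.wn) u (j % m.wn)) (m.T p k x)) =
      bitZ p (F (zz m k i x)) q := by
  rw [← fhat_bits p (m.nv i) F q (zz_lt hm k i x)]
  exact fhat_congr p fun j _ => zz_bits hm p k u x hi j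

/-! ### The functions at the true number -/

theorem s0_zz (hm : m.Ok) (k i x : ℕ) : m.s0 i (zz m k i x) = m.E k 0 := by
  unfold Pool.Agent.Helper81.Tok2.Mach.s0
  rw [zz_div hm, tn_eq, Nat.add_mul_mod_self_left, Nat.mod_eq_of_lt (E_lt hm k 0)]

theorem c0_zz (hm : m.Ok) (k i x : ℕ) : m.c0 i (zz m k i x) = CC m k 0 x := by
  unfold Mach.c0
  rw [zz_div hm, tn_eq, Nat.add_mul_div_left _ _ (by positivity),
    Nat.div_eq_of_lt (E_lt hm k 0), zero_add]

theorem ez_zz (hm : m.Ok) (k i x : ℕ) {t : ℕ} (ht : t ≤ i * (2 * m.b)) :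
    m.ez i (zz m k i x) t = m.E k t := by
  unfold Mach.ez
  rcases Nat.eq_zero_or_pos t with h | h
  · rw [h, ifz_zero, s0_zz hm]
  · rw [ifz_ne (by omega), zz_dig hm k i x (by omega), Nat.sub_add_cancel h]

theorem ev_zz (hm : m.Ok) (k i x y : ℕ) {n t : ℕ} (ht : t < i * (2 * m.b) + n)
    (hy : ∀ j < n, dig (2 ^ m.σ) y j = m.E k (i * (2 * m.b) + j)) :
    m.ev i y (zz m k i x) t = m.E k t := by
  unfold Mach.ev lt01
  by_cases h : t < i * (2 * m.b)
  · rw [if_pos h, ifz_ne one_ne_zero, ez_zz hm k i x h.le]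
  · rw [if_neg h, ifz_zero, hy _ (by omega)]
    congr 1
    omega

theorem cont_zz (hm : m.Ok) (k i x y : ℕ) {n : ℕ}
    (hy : ∀ t < 2 * n, m.ev i y (zz m k i x) t = m.E k t) :
    m.cont i y (zz m k i x) x n = CC m k n x := by
  induction n with
  | zero => exact c0_zz hm k i x
  | succ n ih =>
    have h1 : m.cont i y (zz m k i x) x (n + 1) =
        ifz (eq01 (m.A (m.ev i y (zz m k i x) (2 * n + 1))) x) (m.cont i y (zz m k i x) x n)
          (m.W (m.ev i y (zz m k i x) (2 * n + 1)) (m.cont i y (zz m k i x) x n)) := rfl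
    rw [h1, hy (2 * n + 1) (by omega), ih fun t ht => hy t (by omega), ifz_eq01, CC_succ]

theorem cont_zz' (hm : m.Ok) (k i x y : ℕ) {r : ℕ}
    (hy : ∀ t < 2 * r, dig (2 ^ m.σ) y t = m.E k (i * (2 * m.b) + t)) :
    m.cont i y (zz m k i x) x (i * m.b + r) = CC m k (i * m.b + r) x := by
  apply cont_zz hm
  intro t ht
  have h : 2 * (i * m.b + r) = i * (2 * m.b) + 2 * r := by ring
  exact ev_zz hm k i x y (n := 2 * r) (by omega) hy

theorem bitZ_ite (p : ℕ) (P : Prop) [Decidable P] :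
    bitZ p (if P then 1 else 0) 0 = if P then 1 else 0 := by
  split_ifs <;> simp [bitZ, dig]

theorem TRUTH1 : TRUTH1_stmt := by
  intro m p _ hm k i u hi
  refine ⟨?_, ?_, ?_⟩
  · intro y r e f hy
    rw [fhat_true hm p k u _ hi]
    unfold Mach.chk0
    rw [cont_zz' hm k i _ y hy]
    unfold eq01
    rw [bitZ_ite]
    rfl
  · intro y r hy
    rw [fhat_true hm p k u _ hi]
    unfold Mach.chk1
    rw [cont_zz' hm k i _ y hy, ez_zz hm k i _ le_rfl]
    have h1 : ifz r (eq01 (dig (2 ^ m.σ) y 0) (m.E k (i * (2 * m.b)))) 1 =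
        if (r = 0 → dig (2 ^ m.σ) y 0 = m.E k (i * (2 * m.b))) then 1 else 0 := by
      rcases Nat.eq_zero_or_pos r with h | h
      · rw [h, ifz_zero]
        unfold eq01
        simp
      · rw [ifz_ne (by omega), if_pos (fun h2 => by omega)]
    rw [h1]
    unfold eq01
    have h2 : ∀ (P Q : Prop) [Decidable P] [Decidable Q],
        (if P then 1 else 0) * (if Q then 1 else 0) = if P ∧ Q then 1 else 0 := by
      intro P Q _ _
      by_cases hP : P <;> by_cases hQ : Q <;> simp [hP, hQ]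
    rw [h2, bitZ_ite]
    rfl
  · intro x o
    rw [fhat_true hm p k u x le_rfl]
    congr 1
    unfold Mach.top
    have h0 : m.cont m.G 0 (zz m k m.G x) x (m.G * m.b) = CC m k (m.G * m.b) x :=
      cont_zz' hm k m.G x 0 (r := 0) (fun t ht => absurd ht (by omega))
    rw [ez_zz hm k m.G x le_rfl, h0, show m.G * (2 * m.b) = 2 * (m.G * m.b) by ring, E_even]
    unfold CC Mach.tn
    have h : k * (m.G * m.b) + m.G * m.b = (k + 1) * (m.G * m.b) := by ring
    rw [h]

end Pool.Agent.Helper61.Tok2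

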